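import Pool.Agent.ABC3.Stmts

/-!
# Squad ABC3: the structure of the cap over a subspace (STR)
-/

set_option autoImplicit false
set_option linter.unusedSectionVars false

namespace Pool.Agent.ABC3.H54

open Matrix

section basic

variable {K B : Type} [Field K] [Fintype B] [DecidableEq B]

theorem hasDeg_mul {deg : B → ℤ} {k l : ℤ} {A C : Matrix B B K} (hA : HasDeg deg k A)
    (hC : HasDeg deg l C) : HasDeg deg (k + l) (A * C) := by
  intro s s' h
  rw [Matrix.mul_apply] at h
  obtain ⟨j, -, hj⟩ := Finset.exists_ne_zero_of_sum_ne_zero h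
  have h1 := hA s j (left_ne_zero_of_mul hj)
  have h2 := hC j s' (right_ne_zero_of_mul hj)
  omega

theorem hasDeg_one (deg : B → ℤ) : HasDeg deg 0 (1 : Matrix B B K) := by
  intro s s' h
  have : s = s' := by
    by_contra hne
    exact h (Matrix.one_apply_ne hne)
  rw [this, add_zero]

theorem hasDeg_zero (deg : B → ℤ) (k : ℤ) : HasDeg deg k (0 : Matrix B B K) := by
  intro s s' h
  exact absurd rfl h

theorem homV_mulVec {deg : B → ℤ} {d : ℤ} {A : Matrix B B K} {v : B → K} (hA : HasDeg deg 0 A)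
    (hv : HomV deg d v) : HomV deg d (A.mulVec v) := by
  intro s h
  rw [Matrix.mulVec, dotProduct] at h
  obtain ⟨j, -, hj⟩ := Finset.exists_ne_zero_of_sum_ne_zero h
  have h1 := hA s j (left_ne_zero_of_mul hj)
  have h2 := hv j (right_ne_zero_of_mul hj)
  omega

/-- the columns in the low degrees vanish -/
theorem col_zero {Q : Type} [AddCommGroup Q] [Module K Q] {S : Sys K Q B} {e : Matrix B B K}
    {t : ℤ} (he : e * e = e) (hd : HasDeg S.deg 0 e) (hL : LowA S e t) {s' : B}
    (hs : 2 * S.deg s' < t) (s : B) : e s s' = 0 := by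
  have h1 : HomV S.deg (S.deg s') (e.mulVec (Pi.single s' 1)) := by
    apply homV_mulVec hd
    intro j hj
    by_cases h : j = s'
    · rw [h]
    · exact absurd (Pi.single_eq_of_ne h _) hj
  have h2 : e.mulVec (e.mulVec (Pi.single s' 1)) = e.mulVec (Pi.single s' 1) := by
    rw [Matrix.mulVec_mulVec, he]
  have h3 := hL (S.deg s') hs _ h1 h2
  have h4 := congrFun h3 s
  rw [Matrix.mulVec_single_one] at h4
  exact h4

end basic

section krsec

variable {K : Type} [Field K] {ι ι₁ ι₂ : Type}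

theorem kr_add_right (σ : ι₁ ⊕ ι₂ ≃ ι) (A : Matrix (St ι₁) (St ι₁) K)
    (C C' : Matrix (St ι₂) (St ι₂) K) : kr σ A (C + C') = kr σ A C + kr σ A C' := by
  ext s s'
  simp only [kr, Matrix.add_apply, mul_add]

theorem kr_zero_left (σ : ι₁ ⊕ ι₂ ≃ ι) (C : Matrix (St ι₂) (St ι₂) K) :
    kr σ (0 : Matrix (St ι₁) (St ι₁) K) C = 0 := by
  ext s s'
  simp only [kr, Matrix.zero_apply, zero_mul]

theorem kr_zero_right (σ : ι₁ ⊕ ι₂ ≃ ι) (A : Matrix (St ι₁) (St ι₁) K) :
    kr σ A (0 : Matrix (St ι₂) (St ι₂) K) = 0 := by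
  ext s s'
  simp only [kr, Matrix.zero_apply, mul_zero]

theorem kr_sum_right {J : Type} (σ : ι₁ ⊕ ι₂ ≃ ι) (A : Matrix (St ι₁) (St ι₁) K) (s : Finset J)
    (C : J → Matrix (St ι₂) (St ι₂) K) : kr σ A (∑ j ∈ s, C j) = ∑ j ∈ s, kr σ A (C j) := by
  classical
  induction s using Finset.induction_on with
  | empty => simp only [Finset.sum_empty, kr_zero_right]
  | insert a s ha ih => rw [Finset.sum_insert ha, Finset.sum_insert ha, kr_add_right, ih]

end krsec

theorem str (hEPT : EPTStmt) (hCHI : CHIStmt) (hTR1 : TR1Stmt) (hCPX : CPXStmt) (hRPJ : RPJStmt)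
    (hQUO : QUOStmt) (hTRC : TRCStmt) (hKRS : KRSStmt) : STRStmt := by
  classical
  intro K Q _ _ _ _ _ ι _ _ ev hev hGB e he P hP0 hP1 D hD
  -- the two parts
  let pr : ι → Prop := fun c => P ≤ LinearMap.ker (ev c)
  let X := {c : ι // pr c}
  let Y := {c : ι // ¬ pr c}
  let σ : X ⊕ Y ≃ ι := Equiv.sumCompl pr
  have hσl : ∀ i : X, σ (Sum.inl i) = i.1 := fun i => rfl
  have hσr : ∀ i : Y, σ (Sum.inr i) = i.1 := fun i => rfl
  let evX : X → ((Q ⧸ P) →ₗ[K] K) := fun c => P.liftQ (ev c.1) c.2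
  let evX' : X → (Q →ₗ[K] K) := fun c => ev c.1
  let evY : Y → (P →ₗ[K] K) := fun c => (ev c.1).comp P.subtype
  have hX0 : ∀ c, evX c ≠ 0 := by
    intro c h
    apply hev c.1
    ext q
    have h1 := LinearMap.congr_fun h (Submodule.Quotient.mk q)
    simpa [evX] using h1
  have hY0 : ∀ c, evY c ≠ 0 := by
    intro c h
    apply c.2
    intro p hp
    have h1 := LinearMap.congr_fun h ⟨p, hp⟩
    simpa [evY] using h1
  -- dimensions
  have hfin : Module.finrank K (Q ⧸ P) + Module.finrank K P = Module.finrank K Q :=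
    Submodule.finrank_quotient_add_finrank P
  have hPpos : 0 < Module.finrank K P := by
    rw [Module.finrank_pos_iff]
    exact Submodule.nontrivial_iff_ne_bot.2 hP0
  have hQpos : 0 < Module.finrank K (Q ⧸ P) := by
    rw [Module.finrank_pos_iff]
    exact Submodule.Quotient.nontrivial_iff.2 hP1
  have hcard : Fintype.card X + Fintype.card Y = Fintype.card ι := by
    rw [← Fintype.card_sum]
    exact Fintype.card_congr σ
  have hGX : Good evX := hGB (Q ⧸ P) X evX hX0 hQpos (by omega)
  have hGY : Good evY := hGB P Y evY hY0 hPpos (by omega)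
  -- the caps
  have hChiX : Chi (TSys evX) := hCHI K (Q ⧸ P) (St X) (TSys evX) X evX (hEPT K (Q ⧸ P) X evX) hX0
    (hTR1 K X)
  have hChiY : Chi (TSys evY) := hCHI K P (St Y) (TSys evY) Y evY (hEPT K P Y evY) hY0 (hTR1 K Y)
  obtain ⟨eX, heX⟩ := hCPX K (Q ⧸ P) (St X) (TSys evX) hChiX
  obtain ⟨eY, heY⟩ := hCPX K P (St Y) (TSys evY) hChiY
  have heX' : IsCap (TSys evX') eX := (hQUO K Q X evX' P (fun c => c.2) eX).2 heX
  have hLX := (hGX eX heX).1
  have hLY := (hGY eY heY).1
  obtain ⟨k1, k2, k3, k4, k5, k6⟩ := hKRS K ι X Y σ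
  obtain ⟨-, t2, t3, t4, -, t6⟩ := hTRC K Q (St ι) (TSys ev)
  -- the action
  have hact : ∀ q : Q, (TSys ev).act q = kr σ ((TSys evX').act q) 1 +
      kr σ 1 (mu (fun i : Y => ev i.1 q)) := by
    intro q
    exact k5 (fun c => ev c q)
  have hactP : ∀ (p : Q) (hp : p ∈ P), (TSys ev).act p = kr σ 1 ((TSys evY).act ⟨p, hp⟩) := by
    intro p hp
    rw [hact p]
    have h0 : (TSys evX').act p = 0 := by
      have h1 : (fun c : X => evX' c p) = 0 := by
        funext c
        exact LinearMap.mem_ker.1 (c.2 hp)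
      rw [TSys_act, h1, map_zero]
    rw [h0, kr_zero_left, zero_add]
    rfl
  -- `F`
  set F : Matrix (St ι) (St ι) K := kr σ eX 1 with hF
  have hFdeg : HasDeg sdeg 0 F := by
    have := k6 0 0 eX 1 heX.2.1 (hasDeg_one _)
    simpa using this
  have hFcom : Com (TSys ev) ⊤ F := by
    intro q _
    rw [hact q, hF, add_mul, mul_add, k1, k1, k1, k1, heX'.2.2.1 q Submodule.mem_top]
    simp only [one_mul, mul_one]
  have hFtr : Matrix.trace F ≠ 0 := by
    rw [hF, k3]
    exact mul_ne_zero heX.2.2.2.1 (hTR1 K Y)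
  obtain ⟨α, β, ⟨hαd, hαc⟩, ⟨hβd, hβc⟩, hαβ⟩ := he.2.2.2.2 F hFdeg hFcom hFtr
  -- the relative traces over `P`
  obtain ⟨h, hh, hsum⟩ := hRPJ K P (St Y) (TSys evY) Y evY (hEPT K P Y evY) hY0 hChiY eY heY
  let g : ι → Matrix (St ι) (St ι) K := fun c =>
    if hc : pr c then 0 else e * (α * F * kr σ 1 (h ⟨c, hc⟩) * β) * e
  have hg0 : ∀ c, pr c → g c = 0 := fun c hc => dif_pos hc
  have hg1 : ∀ (c : Y), g c.1 = e * (α * F * kr σ 1 (h c) * β) * e := fun c => dif_neg c.2
  refine ⟨g, ?_, ?_⟩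
  · intro c
    by_cases hc : pr c
    · rw [hg0 c hc]
      refine ⟨hasDeg_zero _ _, fun p _ => by rw [mul_zero, zero_mul], by rw [mul_zero, zero_mul],
        fun _ => rfl⟩
    · have hgc := hg1 ⟨c, hc⟩
      rw [show g c = _ from hgc]
      refine ⟨?_, ?_, ?_, fun hc' => absurd hc' hc⟩
      · have h1 : HasDeg sdeg (-2) (kr σ 1 (h ⟨c, hc⟩)) := by
          have := k6 0 (-2) 1 (h ⟨c, hc⟩) (hasDeg_one _) (hh ⟨c, hc⟩).1
          simpa using this
        have h2 := hasDeg_mul (hasDeg_mul he.2.1 (hasDeg_mul (hasDeg_mul (hasDeg_mul hαd hFdeg) h1)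
          hβd)) he.2.1
        have h3 : (0 + (0 + 0 + -2 + 0) + 0 : ℤ) = -2 := by norm_num
        rw [h3] at h2
        exact h2
      · intro p hp
        obtain ⟨hpP, hpk⟩ := Submodule.mem_inf.1 hp
        have c1 : (TSys ev).act p * e = e * (TSys ev).act p := he.2.2.1 p Submodule.mem_top
        have c2 : (TSys ev).act p * α = α * (TSys ev).act p := hαc p Submodule.mem_top
        have c3 : (TSys ev).act p * F = F * (TSys ev).act p := hFcom p Submodule.mem_top
        have c4 : (TSys ev).act p * kr σ 1 (h ⟨c, hc⟩) =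
            kr σ 1 (h ⟨c, hc⟩) * (TSys ev).act p := by
          rw [hactP p hpP, k1, k1, (hh ⟨c, hc⟩).2 ⟨p, hpP⟩ (by
            rw [LinearMap.mem_ker]
            exact LinearMap.mem_ker.1 hpk)]
        have c5 : (TSys ev).act p * β = β * (TSys ev).act p := hβc p Submodule.mem_top
        have d1 : Commute ((TSys ev).act p) e := c1
        have d2 : Commute ((TSys ev).act p) α := c2
        have d3 : Commute ((TSys ev).act p) F := c3
        have d4 : Commute ((TSys ev).act p) (kr σ 1 (h ⟨c, hc⟩)) := c4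
        have d5 : Commute ((TSys ev).act p) β := c5
        exact (d1.mul_right (((d2.mul_right d3).mul_right d4).mul_right d5)).mul_right d1
      · have hee := he.1
        calc e * (e * (α * F * kr σ 1 (h ⟨c, hc⟩) * β) * e) * e
            = (e * e) * (α * F * kr σ 1 (h ⟨c, hc⟩) * β) * (e * e) := by noncomm_ring
          _ = e * (α * F * kr σ 1 (h ⟨c, hc⟩) * β) * e := by rw [hee]
  · intro q hq v hv hev'
    -- the sum over `ι` is a sum over `Y`
    have hsumY : ∑ c, (Tr (TSys ev) (q c) (g c)).mulVec v =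
        ∑ c : Y, (Tr (TSys ev) (q c.1) (g c.1)).mulVec v := by
      rw [← Equiv.sum_comp σ, Fintype.sum_sum_type]
      have h0 : ∑ i : X, (Tr (TSys ev) (q (σ (Sum.inl i))) (g (σ (Sum.inl i)))).mulVec v = 0 := by
        refine Finset.sum_eq_zero fun i _ => ?_
        rw [hσl, hg0 i.1 i.2]
        simp [Tr]
      rw [h0, zero_add]
      rfl
    rw [hsumY]
    -- relative traces
    have hqY : ∀ c : Y, q c.1 ∈ P ∧ ev c.1 (q c.1) = 1 := fun c => hq c.1 c.2
    have hs := hsum (fun c => ⟨q c.1, (hqY c).1⟩) (fun c => (hqY c).2)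
    have hTrk : ∀ c : Y, kr σ 1 (Tr (TSys evY) ⟨q c.1, (hqY c).1⟩ (h c)) =
        Tr (TSys ev) (q c.1) (kr σ 1 (h c)) := by
      intro c
      unfold Tr
      rw [hactP _ (hqY c).1, kr_add_right, kr_add_right]
      simp only [k1, mul_one]
    -- the vanishing term
    set w : St ι → K := β.mulVec v with hw
    have hwD : HomV sdeg D w := homV_mulVec hβd hv
    have hEw : (kr σ eX eY).mulVec w = 0 := by
      funext s
      rw [Matrix.mulVec, dotProduct]
      refine Finset.sum_eq_zero fun s' _ => ?_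
      by_contra hne
      have hws := right_ne_zero_of_mul hne
      have hkr := left_ne_zero_of_mul hne
      unfold kr at hkr
      have hX := left_ne_zero_of_mul hkr
      have hY := right_ne_zero_of_mul hkr
      have hdeg := hwD s' hws
      rw [k4 s'] at hdeg
      have ht : thr (Fintype.card X) (Module.finrank K (Q ⧸ P)) +
          thr (Fintype.card Y) (Module.finrank K P) =
          thr (Fintype.card ι) (Module.finrank K Q) + 3 := by
        unfold thr
        omega
      have hor : 2 * sdeg (fun i => s' (σ (Sum.inl i))) <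
            thr (Fintype.card X) (Module.finrank K (Q ⧸ P)) ∨
          2 * sdeg (fun i => s' (σ (Sum.inr i))) <
            thr (Fintype.card Y) (Module.finrank K P) := by
        by_contra hcon
        rw [not_or, not_lt, not_lt] at hcon
        omega
      rcases hor with h1 | h1
      · exact hX (col_zero heX.1 heX.2.1 hLX h1 _)
      · exact hY (col_zero heY.1 heY.2.1 hLY h1 _)
    -- `F = kr eX (1 - eY) + kr eX eY`
    have hFsplit : F = F * kr σ 1 (1 - eY) + kr σ eX eY := by
      rw [hF, k1, mul_one, one_mul, ← kr_add_right, sub_add_cancel]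
    have hone : (1 - eY : Matrix (St Y) (St Y) K) =
        ∑ c : Y, Tr (TSys evY) ⟨q c.1, (hqY c).1⟩ (h c) := hs
    have hkrsum : kr σ 1 (1 - eY) = ∑ c : Y, Tr (TSys ev) (q c.1) (kr σ 1 (h c)) := by
      rw [hone, kr_sum_right]
      exact Finset.sum_congr rfl fun c _ => hTrk c
    have hv1 : v = α.mulVec (F.mulVec w) := by
      rw [hw, Matrix.mulVec_mulVec, Matrix.mulVec_mulVec, hαβ, hev']
    have hFw : F.mulVec w = (F * kr σ 1 (1 - eY)).mulVec w := by
      conv_lhs => rw [hFsplit]
      rw [Matrix.add_mulVec, hEw, add_zero]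
    have hv2 : v = (∑ c : Y, α * F * Tr (TSys ev) (q c.1) (kr σ 1 (h c)) * β).mulVec v := by
      conv_lhs => rw [hv1, hFw, hkrsum, hw, Matrix.mulVec_mulVec, Matrix.mulVec_mulVec]
      rw [← Finset.sum_mul, ← Finset.mul_sum]
      congr 1
      noncomm_ring
    have hTr2 : ∀ c : Y, e * (α * F * Tr (TSys ev) (q c.1) (kr σ 1 (h c)) * β) * e =
        Tr (TSys ev) (q c.1) (g c.1) := by
      intro c
      have cα : (TSys ev).act (q c.1) * α = α * (TSys ev).act (q c.1) := hαc _ Submodule.mem_top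
      have cF : (TSys ev).act (q c.1) * F = F * (TSys ev).act (q c.1) := hFcom _ Submodule.mem_top
      have cβ : (TSys ev).act (q c.1) * β = β * (TSys ev).act (q c.1) := hβc _ Submodule.mem_top
      have ce : (TSys ev).act (q c.1) * e = e * (TSys ev).act (q c.1) :=
        he.2.2.1 _ Submodule.mem_top
      have cαF : (TSys ev).act (q c.1) * (α * F) = α * F * (TSys ev).act (q c.1) := by
        have d2 : Commute ((TSys ev).act (q c.1)) α := cα
        have d3 : Commute ((TSys ev).act (q c.1)) F := cF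
        exact d2.mul_right d3
      rw [t4 (q c.1) (α * F) (kr σ 1 (h c)) β cαF cβ, t4 (q c.1) e _ e ce ce, hg1 c]
    calc v = e.mulVec v := hev'.symm
      _ = e.mulVec ((∑ c : Y, α * F * Tr (TSys ev) (q c.1) (kr σ 1 (h c)) * β).mulVec
            (e.mulVec v)) := by
          rw [hev', ← hv2]
          exact hev'.symm
      _ = ∑ c : Y, (Tr (TSys ev) (q c.1) (g c.1)).mulVec v := by
          rw [Matrix.mulVec_mulVec, Matrix.mulVec_mulVec, Finset.mul_sum,
            Finset.sum_mul, Matrix.sum_mulVec]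
          exact Finset.sum_congr rfl fun c _ => by rw [hTr2 c]

end Pool.Agent.ABC3.H54
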